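import Mathlib

/-!
# MP_82653f_gt : no class of test spaces characterises UOK

We show that there is no class `C` of topological spaces such that, for every topological
space `X`, the space `X` is `C`-Hausdorff if and only if it is UOK.
-/

namespace Pool.Agent.Results.MP_82653f_gt.NoTestClass

universe u

open Set Filter Topology

/-- `H ⊆ X` is `C`-closed: its preimage under every continuous map from a member of the
class `C` is closed. -/
def IsCClosed (C : (Z : Type u) → TopologicalSpace Z → Prop) {X : Type u}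
    [TopologicalSpace X] (H : Set X) : Prop :=
  ∀ (Z : Type u) [tZ : TopologicalSpace Z], C Z tZ → ∀ f : Z → X, Continuous f →
    IsClosed (f ⁻¹' H)

/-- `X` is `C`-Hausdorff: the diagonal is `C`-closed in `X × X`. -/
def CHausdorff (C : (Z : Type u) → TopologicalSpace Z → Prop) (X : Type u)
    [TopologicalSpace X] : Prop :=
  IsCClosed C {p : X × X | p.1 = p.2}

/-- `X` is UOK: a continuous map from a noncompact locally compact Hausdorff space `L` to `X`
has at most one continuous extension to the one-point compactification of `L`. -/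
def UOK (X : Type u) [TopologicalSpace X] : Prop :=
  ∀ (L : Type u) [TopologicalSpace L], T2Space L → LocallyCompactSpace L →
    NoncompactSpace L → ∀ f : L → X, Continuous f →
      ∀ g₁ g₂ : OnePoint L → X, Continuous g₁ → Continuous g₂ →
        (∀ x : L, g₁ (x : OnePoint L) = f x) → (∀ x : L, g₂ (x : OnePoint L) = f x) → g₁ = g₂

/-! ### The space of ultrafilters and doublings -/

/-- The Stone-Cech compactification of a countable discrete space. -/
abbrev BN : Type u := Ultrafilter (ULift.{u} ℕ)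

/-- The underlying set of the doubling of `BN` off `U`. -/
def Dbl (U : Set BN.{u}) : Type u := {x : BN.{u} × ULift.{u} Bool // x.1 ∈ U → x.2.down = false}

/-- The two maps `BN → Dbl U`. -/
noncomputable def inc (U : Set BN.{u}) (b : Bool) (x : BN.{u}) : Dbl U :=
  open Classical in ⟨(x, ⟨if x ∈ U then false else b⟩), fun h => if_pos h⟩

/-- The projection `Dbl U → BN`. -/
def prj (U : Set BN.{u}) (x : Dbl U) : BN.{u} := x.1.1

theorem prj_inc (U : Set BN.{u}) (b : Bool) (x : BN.{u}) : prj U (inc U b x) = x := rfl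

theorem down_inc_of_not (U : Set BN.{u}) (b : Bool) (x : BN.{u}) (hx : x ∉ U) :
    (inc U b x).1.2.down = b := by
  unfold inc
  simp only
  rw [if_neg hx]

theorem inc_eq_iff (U : Set BN.{u}) (x : BN.{u}) :
    inc U false x = inc U true x ↔ x ∈ U := by
  constructor
  · intro h
    by_contra hx
    have := congrArg (fun z : Dbl U => z.1.2.down) h
    simp only [down_inc_of_not U _ x hx] at this
    exact Bool.false_ne_true this
  · intro h
    apply Subtype.ext
    apply Prod.ext
    · rfl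
    · apply ULift.ext
      rw [(inc U false x).2 h, (inc U true x).2 h]

/-- The final topology on `Dbl U` for the two maps `inc U b ∘ h`. -/
@[instance_reducible] def dtop {Z : Type u} [TopologicalSpace Z] (U : Set BN.{u}) (h : Z → BN.{u}) :
    TopologicalSpace (Dbl U) where
  IsOpen V := ∀ b : Bool, IsOpen ((fun z => inc U b (h z)) ⁻¹' V)
  isOpen_univ := by intro b; exact isOpen_univ
  isOpen_inter s t hs ht := by
    intro b
    exact (hs b).inter (ht b)
  isOpen_sUnion S hS := by
    intro b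
    rw [preimage_sUnion]
    exact isOpen_biUnion fun t ht => hS t ht b

theorem continuous_inc {Z : Type u} [TopologicalSpace Z] (U : Set BN.{u}) (h : Z → BN.{u})
    (b : Bool) : @Continuous Z (Dbl U) _ (dtop U h) (fun z => inc U b (h z)) := by
  letI := dtop U h
  refine ⟨fun V hV => ?_⟩
  exact hV b

theorem isClosed_prj {Z : Type u} [TopologicalSpace Z] (U : Set BN.{u}) (h : Z → BN.{u})
    (W : Set BN.{u}) (hW : IsClosed (h ⁻¹' W)) : @IsClosed (Dbl U) (dtop U h) (prj U ⁻¹' W) := by
  letI := dtop U h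
  refine ⟨?_⟩
  intro b
  have : (fun z => inc U b (h z)) ⁻¹' (prj U ⁻¹' W)ᶜ = (h ⁻¹' W)ᶜ := by
    ext z
    simp [prj_inc]
  rw [this]
  exact hW.isOpen_compl

theorem continuous_prj {Z : Type u} [TopologicalSpace Z] (U : Set BN.{u}) (h : Z → BN.{u})
    (hh : Continuous h) : @Continuous (Dbl U) BN.{u} (dtop U h) _ (prj U) := by
  letI := dtop U h
  rw [continuous_iff_isClosed]
  intro W hW
  exact isClosed_prj U h W (hW.preimage hh)

/-- The open set of the points of `Dbl U` which lie over `U` or in the sheet `b`. -/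
def sheet (U : Set BN.{u}) (b : Bool) : Set (Dbl U) := {x | x.1.1 ∈ U ∨ x.1.2.down = b}

theorem isOpen_sheet {Z : Type u} [TopologicalSpace Z] (U : Set BN.{u}) (hU : IsOpen U)
    (h : Z → BN.{u}) (hh : Continuous h) (b : Bool) : @IsOpen (Dbl U) (dtop U h) (sheet U b) := by
  intro b'
  by_cases hb : b' = b
  · subst hb
    have : (fun z => inc U b' (h z)) ⁻¹' sheet U b' = univ := by
      ext z
      simp only [mem_univ, iff_true]
      by_cases h1 : h z ∈ U
      · left; exact h1
      · right; exact down_inc_of_not U b' _ h1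
    rw [this]
    exact isOpen_univ
  · have : (fun z => inc U b' (h z)) ⁻¹' sheet U b = h ⁻¹' U := by
      ext z
      constructor
      · intro hz
        by_contra h1
        rcases hz with hz | hz
        · exact h1 hz
        · exact hb ((down_inc_of_not U b' _ h1).symm.trans hz)
      · intro hz
        exact Or.inl hz
    rw [this]
    exact hU.preimage hh

theorem dbl_ext (U : Set BN.{u}) (x y : Dbl U) (h1 : prj U x = prj U y)
    (h2 : x.1.2.down = y.1.2.down) : x = y := by
  apply Subtype.ext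
  apply Prod.ext
  · exact h1
  · exact ULift.ext _ _ h2

/-- If two points of `Dbl U` over the same point differ, then that point is not in `U`, and
they lie in different sheets. -/
theorem ne_sheet (U : Set BN.{u}) (x y : Dbl U) (h1 : prj U x = prj U y) (hne : x ≠ y) :
    prj U x ∉ U ∧ x.1.2.down ≠ y.1.2.down := by
  have h2 : x.1.2.down ≠ y.1.2.down := fun h => hne (dbl_ext U x y h1 h)
  refine ⟨?_, h2⟩
  intro hx
  apply h2
  have hy : prj U y ∈ U := h1 ▸ hx
  rw [x.2 hx, y.2 hy]

theorem mem_of_sheets (U : Set BN.{u}) (x : Dbl U) (b b' : Bool) (hb : b ≠ b')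
    (h1 : x ∈ sheet U b) (h2 : x ∈ sheet U b') : prj U x ∈ U := by
  rcases h1 with h1 | h1
  · exact h1
  · rcases h2 with h2 | h2
    · exact h2
    · exact absurd (h1.symm.trans h2) hb

/-- If a doubling is not UOK, we find a compact Hausdorff space with a nonisolated point. -/
theorem data_of_not_uok {Z : Type u} [TopologicalSpace Z] (U : Set BN.{u}) (hU : IsOpen U)
    (h : Z → BN.{u}) (hh : Continuous h) (hn : ¬ @UOK (Dbl U) (dtop U h)) :
    ∃ (K : Type u) (_ : TopologicalSpace K) (_ : CompactSpace K) (k : K)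
      (v : K → BN.{u}) (N : Set K), (𝓝[≠] k).NeBot ∧ Continuous v ∧ IsClosed N ∧ N ∈ 𝓝 k ∧
        v k ∉ U ∧ (∀ y ∈ N, y ≠ k → v y ∈ U) ∧
        (∀ W : Set BN.{u}, IsClosed (h ⁻¹' W) → IsClosed (v ⁻¹' W)) := by
  letI := dtop U h
  unfold UOK at hn
  push Not at hn
  obtain ⟨L, tL, hT2, hLC, hNC, f, hf, g₁, g₂, hg₁, hg₂, he₁, he₂, hne⟩ := hn
  haveI := hT2
  haveI := hLC
  haveI := hNC
  have hp := continuous_prj U h hh
  -- the two projections agree
  have hv : ∀ x : OnePoint L, prj U (g₁ x) = prj U (g₂ x) := by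
    have h1 : Continuous (fun x => prj U (g₁ x)) := hp.comp hg₁
    have h2 : Continuous (fun x => prj U (g₂ x)) := hp.comp hg₂
    have hd : DenseRange ((↑) : L → OnePoint L) := OnePoint.denseRange_coe
    have := hd.equalizer h1 h2 (by
      funext x
      simp [he₁, he₂])
    intro x
    exact congrFun this x
  have hinf : g₁ OnePoint.infty ≠ g₂ OnePoint.infty := by
    intro hc
    apply hne
    funext x
    induction x using OnePoint.rec with
    | infty => exact hc
    | coe x => rw [he₁, he₂]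
  obtain ⟨hnU, hsh⟩ := ne_sheet U _ _ (hv _) hinf
  set b := (g₁ OnePoint.infty).1.2.down with hb
  set b' := (g₂ OnePoint.infty).1.2.down with hb'
  have ho : IsOpen (g₁ ⁻¹' sheet U b ∩ g₂ ⁻¹' sheet U b') :=
    ((isOpen_sheet U hU h hh b).preimage hg₁).inter ((isOpen_sheet U hU h hh b').preimage hg₂)
  have hm : (OnePoint.infty : OnePoint L) ∈ g₁ ⁻¹' sheet U b ∩ g₂ ⁻¹' sheet U b' := by
    constructor
    · right; rfl
    · right; rfl
  obtain ⟨N, hN, hNc, hNs⟩ := exists_mem_nhds_isClosed_subset (ho.mem_nhds hm)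
  refine ⟨OnePoint L, inferInstance, inferInstance, OnePoint.infty, fun x => prj U (g₁ x), N,
    inferInstance, hp.comp hg₁, hNc, hN, hnU, ?_, ?_⟩
  · intro y hy hyn
    have hy2 := hNs hy
    induction y using OnePoint.rec with
    | infty => exact absurd rfl hyn
    | coe y =>
      have h1 : g₁ (y : OnePoint L) ∈ sheet U b := hy2.1
      have h2 : g₂ (y : OnePoint L) ∈ sheet U b' := hy2.2
      rw [he₂, ← he₁] at h2
      exact mem_of_sheets U _ b b' hsh h1 h2
  · intro W hW
    exact (isClosed_prj U h W hW).preimage hg₁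

/-- The basic clopen set of a set `A`. -/
def cl (A : Set (ULift.{u} ℕ)) : Set BN.{u} := {x | A ∈ x}

theorem isOpen_cl (A : Set (ULift.{u} ℕ)) : IsOpen (cl A) := ultrafilter_isOpen_basic A

theorem isClosed_cl (A : Set (ULift.{u} ℕ)) : IsClosed (cl A) := ultrafilter_isClosed_basic A

theorem eq_of_mem_cl {A : ℕ → Set (ULift.{u} ℕ)} (hA : ∀ m n, m ≠ n → Disjoint (A m) (A n))
    {x : BN.{u}} {m n : ℕ} (hm : A m ∈ x) (hn : A n ∈ x) : m = n := by
  by_contra hne
  have := x.inter_mem hm hn
  rw [(hA m n hne).inter_eq] at this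
  exact x.empty_notMem this

/-- A compact set covered by disjoint open sets meets only finitely many of them. -/
theorem finite_of_compact {K : Type u} [TopologicalSpace K] [CompactSpace K]
    (v : K → BN.{u}) (hv : Continuous v) (A : ℕ → Set (ULift.{u} ℕ))
    (hA : ∀ m n, m ≠ n → Disjoint (A m) (A n)) (F : Set K) (hF : IsClosed F) (S : Set ℕ)
    (hc : ∀ y ∈ F, ∃ n ∈ S, A n ∈ v y) : {n | ∃ y ∈ F, A n ∈ v y}.Finite := by
  have hF' : IsCompact F := hF.isCompact
  obtain ⟨t, ht⟩ := hF'.elim_finite_subcover (fun n : ℕ => v ⁻¹' cl (A n))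
    (fun n => (isOpen_cl _).preimage hv) (by
      intro y hy
      obtain ⟨n, _, hn⟩ := hc y hy
      exact mem_iUnion.2 ⟨n, hn⟩)
  refine t.finite_toSet.subset ?_
  rintro n ⟨y, hy, hn⟩
  have := ht hy
  simp only [mem_iUnion] at this
  obtain ⟨m, hm, hmy⟩ := this
  have : m = n := eq_of_mem_cl hA hmy hn
  subst this
  exact hm

theorem not_isolated_contra {K : Type u} [TopologicalSpace K] (k : K)
    [hk : (𝓝[≠] k).NeBot] (N : Set K) (hN : N ∈ 𝓝 k)
    (hcl : IsClosed (N \ {k})) : False := by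
  have h1 : (N \ {k})ᶜ ∈ 𝓝 k := hcl.isOpen_compl.mem_nhds (by simp)
  have h2 : {k} ∈ 𝓝 k := by
    refine mem_of_superset (inter_mem h1 hN) ?_
    rintro y ⟨hy1, hy2⟩
    by_contra hy3
    exact hy1 ⟨hy2, hy3⟩
  have h3 : ({k}ᶜ ∩ {k} : Set K) ∈ 𝓝[≠] k := inter_mem self_mem_nhdsWithin
    (mem_nhdsWithin_of_mem_nhds h2)
  simp only [compl_inter_self] at h3
  exact hk.ne (empty_mem_iff_bot.1 h3)

/-- An infinite set of natural numbers splits into two infinite sets. -/
theorem exists_split (T : Set ℕ) (hT : T.Infinite) :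
    ∃ S : Set ℕ, (S ∩ T).Infinite ∧ (Sᶜ ∩ T).Infinite := by
  haveI := hT.to_subtype
  classical
  let e := Nat.orderEmbeddingOfSet T
  have hmem : ∀ n, e n ∈ T := fun n => by
    have := Nat.orderEmbeddingOfSet_range T
    rw [← this]
    exact mem_range_self n
  refine ⟨range (fun n => e (2 * n)), ?_, ?_⟩
  · have : range (fun n => e (2 * n)) ∩ T = range (fun n => e (2 * n)) := by
      apply inter_eq_left.2
      rintro _ ⟨n, rfl⟩
      exact hmem _
    rw [this]
    apply infinite_range_of_injective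
    intro a b hab
    have := e.injective hab
    omega
  · apply (infinite_range_of_injective (f := fun n => e (2 * n + 1)) (by
      intro a b hab
      have := e.injective hab
      omega)).mono
    rintro _ ⟨n, rfl⟩
    refine ⟨?_, hmem _⟩
    rintro ⟨m, hm⟩
    have := e.injective hm
    omega

/-- Doublings along a disjoint union of basic clopen sets are UOK. -/
theorem step_two (A : ℕ → Set (ULift.{u} ℕ)) (hA : ∀ m n, m ≠ n → Disjoint (A m) (A n)) :
    @UOK (Dbl (⋃ n, cl (A n))) (dtop (⋃ n, cl (A n)) (fun x : BN.{u} => x)) := by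
  by_contra hn
  obtain ⟨K, tK, cK, k, v, N, hk, hv, hN, hNk, hvk, hvN, -⟩ :=
    data_of_not_uok (⋃ n, cl (A n)) (isOpen_iUnion fun n => isOpen_cl _) (fun x => x)
      continuous_id hn
  have hvk' : ∀ n, A n ∉ v k := by
    intro n hn
    exact hvk (mem_iUnion.2 ⟨n, hn⟩)
  have hvN' : ∀ y ∈ N, y ≠ k → ∃ n, A n ∈ v y := by
    intro y hy hyk
    obtain ⟨n, hn⟩ := mem_iUnion.1 (hvN y hy hyk)
    exact ⟨n, hn⟩
  set T : Set ℕ := {n | ∃ y ∈ N, A n ∈ v y} with hTdef
  -- key: half finite
  have key : ∀ S : Set ℕ, (⋃ n ∈ S, A n) ∉ v k → (S ∩ T).Finite := by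
    intro S hS
    have hF : IsClosed (N ∩ v ⁻¹' cl (⋃ n ∈ S, A n)) := hN.inter ((isClosed_cl _).preimage hv)
    have := finite_of_compact v hv A hA _ hF univ (by
      rintro y ⟨hy, hy2⟩
      have hyk : y ≠ k := by
        rintro rfl
        exact hS hy2
      obtain ⟨n, hn⟩ := hvN' y hy hyk
      exact ⟨n, mem_univ _, hn⟩)
    refine this.subset ?_
    rintro n ⟨hnS, y, hy, hn⟩
    refine ⟨y, ⟨hy, ?_⟩, hn⟩
    exact mem_of_superset hn (subset_biUnion_of_mem (u := fun n => A n) hnS)
  have hTfin : T.Finite := by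
    by_contra hTi
    obtain ⟨S, hS1, hS2⟩ := exists_split T hTi
    by_cases h1 : (⋃ n ∈ S, A n) ∈ v k
    · apply hS2
      apply key
      intro h2
      have h3 := (v k).inter_mem h1 h2
      have h4 : (⋃ n ∈ S, A n) ∩ (⋃ n ∈ Sᶜ, A n) = ∅ := by
        ext x
        simp only [mem_inter_iff, mem_iUnion, mem_empty_iff_false, iff_false]
        rintro ⟨⟨m, hm, hxm⟩, ⟨n, hn, hxn⟩⟩
        have hmn : m ≠ n := by
          rintro rfl
          exact hn hm
        exact Set.disjoint_left.1 (hA m n hmn) hxm hxn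
      rw [h4] at h3
      exact (v k).empty_notMem h3
    · exact hS1 (key S h1)
  have hcl : IsClosed (N \ {k}) := by
    have : N \ {k} = N ∩ v ⁻¹' (⋃ n ∈ T, cl (A n)) := by
      ext y
      constructor
      · rintro ⟨hy, hyk⟩
        obtain ⟨n, hn⟩ := hvN' y hy hyk
        exact ⟨hy, mem_biUnion (show n ∈ T from ⟨y, hy, hn⟩) hn⟩
      · rintro ⟨hy, hy2⟩
        refine ⟨hy, ?_⟩
        rintro rfl
        simp only [mem_preimage, mem_iUnion] at hy2
        obtain ⟨n, _, hn⟩ := hy2
        exact hvk' n hn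
    rw [this]
    exact hN.inter ((hTfin.isClosed_biUnion fun n _ => isClosed_cl _).preimage hv)
  exact not_isolated_contra k N hNk hcl

/-- Step three: the space with the final topology is UOK. -/
theorem step_three {Z : Type u} [TopologicalSpace Z] (h : Z → BN.{u}) (hh : Continuous h)
    (p : BN.{u})
    (hcl : ∀ A : ℕ → Set (ULift.{u} ℕ), (∀ m n, m ≠ n → Disjoint (A m) (A n)) →
      IsClosed (h ⁻¹' (⋃ n, cl (A n)))) :
    @UOK (Dbl {p}ᶜ) (dtop {p}ᶜ h) := by
  by_contra hn
  obtain ⟨K, tK, cK, k, v, N, hk, hv, hN, hNk, hvk, hvN, hW⟩ :=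
    data_of_not_uok {p}ᶜ isOpen_compl_singleton h hh hn
  have hvk : v k = p := by simpa using hvk
  have hvN : ∀ y ∈ N, y ≠ k → v y ≠ p := by
    intro y hy hyk
    simpa using hvN y hy hyk
  -- the recursion step
  have step : ∀ B : {B : Set (ULift.{u} ℕ) // B ∉ p}, ∃ (B' : {B : Set (ULift.{u} ℕ) // B ∉ p})
      (y : K), B.1 ⊆ B'.1 ∧ y ∈ N ∧ B.1 ∉ v y ∧ B'.1 ∈ v y := by
    rintro ⟨B, hB⟩
    have h1 : (v ⁻¹' cl B)ᶜ ∈ 𝓝 k := by
      apply ((isClosed_cl B).preimage hv).isOpen_compl.mem_nhds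
      simpa [cl, hvk] using hB
    have h2 : (v ⁻¹' cl B)ᶜ ∩ N ∩ {k}ᶜ ∈ 𝓝[≠] k :=
      inter_mem (mem_nhdsWithin_of_mem_nhds (inter_mem h1 hNk)) self_mem_nhdsWithin
    obtain ⟨y, ⟨hy1, hy2⟩, hy3⟩ := hk.nonempty_of_mem h2
    have hyp : v y ≠ p := hvN y hy2 hy3
    have : ∃ A : Set (ULift.{u} ℕ), A ∈ v y ∧ A ∉ p := by
      by_contra hcon
      push Not at hcon
      apply hyp
      exact (Ultrafilter.coe_le_coe.1 (fun s hs => hcon s hs)).symm
    obtain ⟨A, hA1, hA2⟩ := this
    refine ⟨⟨B ∪ A, ?_⟩, y, subset_union_left, hy2, hy1, mem_of_superset hA1 subset_union_right⟩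
    rw [Ultrafilter.union_mem_iff]
    push Not
    exact ⟨hB, hA2⟩
  choose nx yy hsub hyN hnot hmem using step
  let B : ℕ → {B : Set (ULift.{u} ℕ) // B ∉ p} := fun n => Nat.rec ⟨∅, p.empty_notMem⟩
    (fun _ b => nx b) n
  have hBs : ∀ n, B (n + 1) = nx (B n) := fun n => rfl
  have hmono : ∀ m n, m ≤ n → (B m).1 ⊆ (B n).1 := by
    intro m n hmn
    induction hmn with
    | refl => exact subset_rfl
    | step _ ih => exact ih.trans (hsub _)
  let A : ℕ → Set (ULift.{u} ℕ) := fun n => (B (n + 1)).1 \ (B n).1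
  have hA : ∀ m n, m ≠ n → Disjoint (A m) (A n) := by
    have hlt : ∀ m n, m < n → Disjoint (A m) (A n) := by
      intro m n hmn
      rw [Set.disjoint_left]
      rintro x ⟨hx1, _⟩ ⟨_, hx2⟩
      exact hx2 (hmono (m + 1) n hmn hx1)
    intro m n hmn
    rcases lt_or_gt_of_ne hmn with h1 | h1
    · exact hlt m n h1
    · exact (hlt n m h1).symm
  have hyA : ∀ n, A n ∈ v (yy (B n)) := by
    intro n
    have h1 : (B (n + 1)).1 ∈ v (yy (B n)) := hmem (B n)
    have h2 : (B n).1ᶜ ∈ v (yy (B n)) := Ultrafilter.compl_mem_iff_notMem.2 (hnot (B n))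
    exact (v (yy (B n))).inter_mem h1 h2
  have hcl' := hW _ (hcl A hA)
  have hF := finite_of_compact v hv A hA (N ∩ v ⁻¹' (⋃ n, cl (A n))) (hN.inter hcl') univ (by
    rintro y ⟨_, hy⟩
    obtain ⟨n, hn⟩ := mem_iUnion.1 hy
    exact ⟨n, mem_univ _, hn⟩)
  apply Set.infinite_univ.not_finite (hF.subset ?_) (α := ℕ)
  intro n _
  exact ⟨yy (B n), ⟨hyN _, mem_iUnion.2 ⟨n, hyA n⟩⟩, hyA n⟩

/-- A nonprincipal ultrafilter. -/
noncomputable def pt : BN.{u} := hyperfilter (ULift.{u} ℕ)

theorem not_isOpen_pt : ¬ IsOpen ({pt.{u}} : Set BN.{u}) := by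
  intro ho
  obtain ⟨s, hs, hps, hsub⟩ := ultrafilterBasis_is_basis.exists_subset_of_mem_open
    (mem_singleton pt.{u}) ho
  obtain ⟨A, rfl⟩ := hs
  have hne : A.Nonempty := pt.{u}.nonempty_of_mem hps
  obtain ⟨a, ha⟩ := hne
  have h1 : (pure a : Ultrafilter (ULift.{u} ℕ)) ∈ ({pt.{u}} : Set BN.{u}) := hsub (by
    simpa using ha)
  have h2 : ({a} : Set (ULift.{u} ℕ)) ∈ pt.{u} := by
    rw [← mem_singleton_iff.1 h1]
    simp
  exact (Set.finite_singleton a).notMem_hyperfilter h2

/-- The doubling of `BN` off `pt` is not UOK. -/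
theorem not_uok_pt : ¬ @UOK (Dbl {pt.{u}}ᶜ) (dtop {pt.{u}}ᶜ (fun x : BN.{u} => x)) := by
  letI := dtop {pt.{u}}ᶜ (fun x : BN.{u} => x)
  intro hU
  let L : Type u := ({pt.{u}}ᶜ : Set BN.{u})
  have hemb : IsOpenEmbedding (Subtype.val : L → BN.{u}) :=
    isOpen_compl_singleton.isOpenEmbedding_subtypeVal
  haveI : LocallyCompactSpace L := hemb.locallyCompactSpace
  haveI : NoncompactSpace L := by
    rw [← not_compactSpace_iff]
    intro hc
    have h1 : IsCompact ({pt.{u}}ᶜ : Set BN.{u}) := isCompact_iff_compactSpace.2 hc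
    exact not_isOpen_pt (by simpa using h1.isClosed.isOpen_compl)
  let e : OnePoint L ≃ₜ BN.{u} := OnePoint.equivOfIsEmbeddingOfRangeEq pt.{u}
    (Subtype.val : L → BN.{u}) hemb.isEmbedding Subtype.range_coe
  have hcont : ∀ b, Continuous (fun x : OnePoint L => inc {pt.{u}}ᶜ b (e x)) := by
    intro b
    exact (continuous_inc {pt.{u}}ᶜ (fun x : BN.{u} => x) b).comp e.continuous
  have := hU L inferInstance inferInstance inferInstance (fun x => inc {pt.{u}}ᶜ false x.1)
    ((continuous_inc {pt.{u}}ᶜ (fun x : BN.{u} => x) false).comp continuous_subtype_val)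
    _ _ (hcont false) (hcont true) (fun x => rfl) (fun x => by
      exact ((inc_eq_iff {pt.{u}}ᶜ x.1).2 x.2).symm)
  have h2 := congrFun this OnePoint.infty
  have h3 : e OnePoint.infty = pt.{u} := rfl
  simp only [h3] at h2
  rw [inc_eq_iff] at h2
  exact h2 rfl

/-- **No class of test spaces characterises UOK.**  There is no class `OK` of topological spaces
such that every topological space is `OK`-Hausdorff if and only if it is UOK. -/
theorem result : ¬ ∃ OK : (Z : Type u) → TopologicalSpace Z → Prop,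
    ∀ (X : Type u) [TopologicalSpace X], CHausdorff OK X ↔ UOK X := by
  rintro ⟨C, hC⟩
  set U : Set BN.{u} := {pt.{u}}ᶜ with hUdef
  have hUo : IsOpen U := isOpen_compl_singleton
  -- the basic space is not `C`-Hausdorff
  have h0 : ¬ @CHausdorff C (Dbl U) (dtop U (fun x : BN.{u} => x)) := by
    intro hc
    exact not_uok_pt ((@hC (Dbl U) (dtop U (fun x : BN.{u} => x))).1 hc)
  letI t0 := dtop U (fun x : BN.{u} => x)
  unfold CHausdorff IsCClosed at h0
  push Not at h0
  obtain ⟨Z, tZ, hZ, F, hF, hnc⟩ := h0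
  have hprj := continuous_prj U (fun x : BN.{u} => x) continuous_id
  let h : Z → BN.{u} := fun z => prj U (F z).1
  have hh : Continuous h := hprj.comp (continuous_fst.comp hF)
  have hh2 : Continuous (fun z => prj U (F z).2) := hprj.comp (continuous_snd.comp hF)
  -- a point of the closure
  obtain ⟨z0, hz0, hz0n⟩ : ∃ z0, z0 ∈ closure (F ⁻¹' {p | p.1 = p.2}) ∧
      z0 ∉ F ⁻¹' {p | p.1 = p.2} := by
    by_contra hcon
    push Not at hcon
    exact hnc (isClosed_of_closure_subset hcon)
  have hpeq : prj U (F z0).1 = prj U (F z0).2 := by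
    have hcl : IsClosed {z | prj U (F z).1 = prj U (F z).2} := isClosed_eq hh hh2
    have hsub : F ⁻¹' {p | p.1 = p.2} ⊆ {z | prj U (F z).1 = prj U (F z).2} := by
      intro z hz
      have : (F z).1 = (F z).2 := hz
      simp only [mem_ofPred_eq, this]
    exact (hcl.closure_subset_iff.2 hsub) hz0
  have hne : (F z0).1 ≠ (F z0).2 := hz0n
  obtain ⟨hnU, hsh⟩ := ne_sheet U _ _ hpeq hne
  have hnotclosed : ¬ IsClosed (h ⁻¹' U) := by
    intro hclosed
    apply hnU
    have hz : z0 ∈ closure (h ⁻¹' U) := by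
      rw [mem_closure_iff]
      intro O hO hzO
      have hO2 : IsOpen (O ∩ ((fun z => (F z).1) ⁻¹' sheet U (F z0).1.1.2.down ∩
          (fun z => (F z).2) ⁻¹' sheet U (F z0).2.1.2.down)) :=
        hO.inter (((isOpen_sheet U hUo _ continuous_id _).preimage (continuous_fst.comp hF)).inter
          ((isOpen_sheet U hUo _ continuous_id _).preimage (continuous_snd.comp hF)))
      obtain ⟨z, ⟨hzO, hz1, hz2⟩, hzE⟩ := mem_closure_iff.1 hz0 _ hO2
        ⟨hzO, Or.inr rfl, Or.inr rfl⟩
      refine ⟨z, hzO, ?_⟩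
      have hzE' : (F z).1 = (F z).2 := hzE
      have hz2' : (F z).2 ∈ sheet U (F z0).2.1.2.down := hz2
      rw [← hzE'] at hz2'
      exact mem_of_sheets U _ _ _ hsh hz1 hz2'
    rw [hclosed.closure_eq] at hz
    exact hz
  -- closed preimages
  have hclosed : ∀ A : ℕ → Set (ULift.{u} ℕ), (∀ m n, m ≠ n → Disjoint (A m) (A n)) →
      IsClosed (h ⁻¹' (⋃ n, cl (A n))) := by
    intro A hA
    set V : Set BN.{u} := ⋃ n, cl (A n) with hV
    letI tV := dtop V (fun x : BN.{u} => x)
    have h1 : CHausdorff C (Dbl V) := (hC (Dbl V)).2 (step_two A hA)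
    have h2 := h1 Z hZ (fun z => (inc V false (h z), inc V true (h z)))
      (((continuous_inc V (fun x : BN.{u} => x) false).comp hh).prodMk
        ((continuous_inc V (fun x : BN.{u} => x) true).comp hh))
    have h3 : (fun z => (inc V false (h z), inc V true (h z))) ⁻¹' {p | p.1 = p.2} = h ⁻¹' V := by
      ext z
      exact inc_eq_iff V (h z)
    rw [h3] at h2
    exact h2
  -- the final space
  apply hnotclosed
  letI tY := dtop U h
  have h1 : @CHausdorff C (Dbl U) tY :=
    (@hC (Dbl U) tY).2 (step_three h hh pt.{u} hclosed)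
  have h2 := @h1 Z tZ hZ (fun z => (inc U false (h z), inc U true (h z)))
    ((continuous_inc U h false).prodMk (continuous_inc U h true))
  have h3 : (fun z => (inc U false (h z), inc U true (h z))) ⁻¹' {p | p.1 = p.2} = h ⁻¹' U := by
    ext z
    exact inc_eq_iff U (h z)
  rw [h3] at h2
  exact h2

end Pool.Agent.Results.MP_82653f_gt.NoTestClass
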